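import Pool.Agent.W680.WH.Stm

/-!
# WHH-KN

Normalisation of the rotations, from KN1, KN2, KN3.
-/

set_option autoImplicit false

open ContinuousLinearMap
open scoped ComplexConjugate InnerProductSpace

namespace Pool.Agent.W496.WH.KN

open Pool.Agent.W680.WH

theorem main (h1 : S_KN1) (h2 : S_KN2) (h3 : S_KN3) : S_KN := by
  intro P m k W hm hP hlow hk hW hWZ
  obtain ⟨A, l, hl, hAZ, hA0, hWA⟩ := h1 P m k W hm hP hlow hW hWZ
  obtain ⟨-, -, hbd⟩ := h2 P m k W A l hm hP hlow hk hW hl hAZ hA0 hWA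
  have hsurj := h3 P m k W A l hm hP hlow hk hW hl hAZ hA0 hWZ hWA hbd
  obtain ⟨c, hc, hbd⟩ := hbd
  have hinj : Function.Injective A := by
    intro x y hxy
    have h := hbd (x - y)
    rw [map_sub, hxy, sub_self, norm_zero] at h
    have h4 : ‖x - y‖ ≤ 0 := by
      by_contra hcon
      push Not at hcon
      have := mul_pos hc hcon
      linarith
    exact sub_eq_zero.1 (norm_le_zero_iff.1 h4)
  have hu : IsUnit A := ContinuousLinearMap.isUnit_iff_bijective.2 ⟨hinj, hsurj⟩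
  obtain ⟨F, hF⟩ := hu
  refine ⟨F, l, hl, ?_, ?_⟩
  · rw [hF]; exact hAZ
  · rw [hF]; exact hWA

end Pool.Agent.W496.WH.KN
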